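import Mathlib

/-!
# The Hopf algebra of a finite group `G` acting on a finite group `L`

As an algebra it is the algebra of functions from `G` to the group algebra of `L`.
-/

set_option linter.unusedSectionVars false
set_option linter.unusedSimpArgs false

namespace V11196.STP

open TensorProduct

/-- The underlying algebra: functions `G → ℂ[L]`. The action `φ` enters the coproduct only. -/
def KK (G L : Type) [Group G] [Group L] (_ : G →* MulAut L) : Type := G → MonoidAlgebra ℂ L

section

variable {G L : Type} [Group G] [Group L] {φ : G →* MulAut L}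

noncomputable instance : Ring (KK G L φ) := inferInstanceAs (Ring (G → MonoidAlgebra ℂ L))
noncomputable instance : Algebra ℂ (KK G L φ) :=
  inferInstanceAs (Algebra ℂ (G → MonoidAlgebra ℂ L))

instance [Finite G] [Finite L] : Module.Finite ℂ (KK G L φ) :=
  inferInstanceAs (Module.Finite ℂ (G → MonoidAlgebra ℂ L))

instance [Finite G] [Finite L] : IsSemisimpleRing (KK G L φ) := by
  haveI : NeZero (Nat.card L : ℂ) := ⟨by
    have := Nat.card_pos (α := L)
    exact_mod_cast this.ne'⟩
  haveI : IsSemisimpleRing (MonoidAlgebra ℂ L) := inferInstance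
  exact inferInstanceAs (IsSemisimpleRing (G → MonoidAlgebra ℂ L))

variable [DecidableEq G] 

/-- The basis element at `(g, x)`. -/
noncomputable def b (φ : G →* MulAut L) (g : G) (x : L) : KK G L φ :=
  fun g' => if g' = g then MonoidAlgebra.single x 1 else 0

theorem b_mul (g g' : G) (x x' : L) : b φ g x * b φ g' x' = if g = g' then b φ g (x * x') else 0 := by
  funext t
  show (if t = g then MonoidAlgebra.single x (1 : ℂ) else 0) *
    (if t = g' then MonoidAlgebra.single x' (1 : ℂ) else 0) = _
  by_cases hg : g = g'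
  · subst hg
    by_cases ht : t = g
    · rw [if_pos ht, if_pos ht, if_pos rfl, MonoidAlgebra.single_mul_single, mul_one]
      show _ = if t = g then MonoidAlgebra.single (x * x') (1 : ℂ) else 0
      rw [if_pos ht]
    · rw [if_neg ht, if_pos rfl, zero_mul]
      show _ = if t = g then MonoidAlgebra.single (x * x') (1 : ℂ) else 0
      rw [if_neg ht]
  · rw [if_neg hg]
    by_cases ht : t = g
    · rw [if_pos ht, if_neg (fun h => hg (ht.symm.trans h)), mul_zero]; rfl
    · rw [if_neg ht, zero_mul]; rfl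

variable [Fintype G]

theorem KK_sum_apply {ι : Type} (s : Finset ι) (f : ι → KK G L φ) (t : G) :
    (∑ i ∈ s, f i) t = ∑ i ∈ s, f i t :=
  Finset.sum_apply (M := fun _ : G => MonoidAlgebra ℂ L) t s f

theorem sum_b_one : ∑ g : G, b φ g 1 = 1 := by
  funext t
  rw [KK_sum_apply]
  simp only [b]
  rw [Finset.sum_eq_single t]
  · rw [if_pos rfl]; rfl
  · intro g _ hg
    rw [if_neg (Ne.symm hg)]
  · simp

variable [Fintype L] [DecidableEq L]

theorem eq_sum_b (f : KK G L φ) : f = ∑ g : G, ∑ x : L, (f g).coeff x • b φ g x := by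
  funext t
  rw [KK_sum_apply, Finset.sum_eq_single t]
  · rw [KK_sum_apply]
    have : ∀ x : L, ((f t).coeff x • b φ t x : KK G L φ) t =
        MonoidAlgebra.single x ((f t).coeff x) := by
      intro x
      show (f t).coeff x • (if t = t then MonoidAlgebra.single x (1 : ℂ) else 0) = _
      rw [if_pos rfl]
      ext
      simp [Finsupp.single_apply]
    simp only [this]
    ext x
    rw [MonoidAlgebra.coeff_sum]
    simp [Finsupp.single_apply]
  · intro g _ hg
    rw [KK_sum_apply]
    apply Finset.sum_eq_zero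
    intro x _
    show (f g).coeff x • (if t = g then MonoidAlgebra.single x (1 : ℂ) else 0) = _
    rw [if_neg (Ne.symm hg), smul_zero]
  · simp

/-- Linear maps out of `KK` that agree on the basis are equal. -/
theorem KK_ext {M : Type*} [AddCommMonoid M] [Module ℂ M] {p q : KK G L φ →ₗ[ℂ] M}
    (h : ∀ g x, p (b φ g x) = q (b φ g x)) : p = q := by
  ext f
  rw [eq_sum_b f]
  simp only [map_sum, map_smul, h]

/-- The linear map with prescribed values on the basis. -/
noncomputable def mk {M : Type*} [AddCommGroup M] [Module ℂ M] (F : G → L → M) :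
    KK G L φ →ₗ[ℂ] M where
  toFun f := ∑ g : G, ∑ x : L, (f g).coeff x • F g x
  map_add' f f' := by
    simp only [← Finset.sum_add_distrib, ← add_smul]
    rfl
  map_smul' c f := by
    simp only [Finset.smul_sum, smul_smul]
    rfl

theorem mk_b {M : Type*} [AddCommGroup M] [Module ℂ M] (F : G → L → M) (g : G) (x : L) :
    mk F (b φ g x) = F g x := by
  show ∑ g' : G, ∑ x' : L, (b φ g x g').coeff x' • F g' x' = F g x
  rw [Finset.sum_eq_single g]
  · rw [Finset.sum_eq_single x]
    · simp [b]
    · intro y _ hy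
      simp [b, Finsupp.single_apply, Ne.symm hy]
    · simp
  · intro g' _ hg
    apply Finset.sum_eq_zero
    intro y _
    simp [b, hg]
  · simp

/-- The coproduct. -/
noncomputable def cm : KK G L φ →ₗ[ℂ] KK G L φ ⊗[ℂ] KK G L φ :=
  mk fun g x => ∑ h : G, b φ h x ⊗ₜ[ℂ] b φ (h⁻¹ * g) ((φ h).symm x)

theorem cm_b (g : G) (x : L) : cm (b φ g x) =
    ∑ h : G, b φ h x ⊗ₜ[ℂ] b φ (h⁻¹ * g) ((φ h).symm x) := mk_b _ _ _

/-- The counit. -/
noncomputable def cu : KK G L φ →ₗ[ℂ] ℂ := mk fun g _ => if g = 1 then 1 else 0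

theorem cu_b (g : G) (x : L) : cu (b φ g x) = if g = 1 then 1 else 0 := mk_b _ _ _

/-- The antipode. -/
noncomputable def ap : KK G L φ →ₗ[ℂ] KK G L φ :=
  mk fun g x => b φ g⁻¹ ((φ g).symm x⁻¹)

theorem ap_b (g : G) (x : L) : ap (b φ g x) = b φ g⁻¹ ((φ g).symm x⁻¹) := mk_b _ _ _

theorem cm_mul_b (g g' : G) (x x' : L) :
    cm (b φ g x * b φ g' x') = cm (b φ g x) * cm (b φ g' x') := by
  rw [cm_b, cm_b, b_mul, Finset.sum_mul_sum]
  simp only [Algebra.TensorProduct.tmul_mul_tmul, b_mul]
  have h1 : ∀ h : G, (∑ h' : G, (if h = h' then b φ h (x * x') else 0 : KK G L φ) ⊗ₜ[ℂ]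
      (if h⁻¹ * g = h'⁻¹ * g' then b φ (h⁻¹ * g) ((φ h).symm x * (φ h').symm x') else 0 :
        KK G L φ)) =
      (if g = g' then b φ h (x * x') ⊗ₜ[ℂ] b φ (h⁻¹ * g) ((φ h).symm (x * x')) else 0) := by
    intro h
    rw [Finset.sum_eq_single h]
    · by_cases hg : g = g'
      · rw [if_pos rfl, if_pos (by rw [hg]), if_pos hg, map_mul]
      · rw [if_neg (fun h => hg (mul_left_cancel h)), if_neg hg, TensorProduct.tmul_zero]
    · intro y _ hy
      rw [if_neg (Ne.symm hy), TensorProduct.zero_tmul]
    · simp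
  rw [Finset.sum_congr rfl (fun h _ => h1 h)]
  by_cases hg : g = g'
  · rw [if_pos hg, cm_b]
    exact Finset.sum_congr rfl (fun x _ => (if_pos hg).symm)
  · rw [if_neg hg, map_zero]
    exact (Finset.sum_eq_zero (fun x _ => if_neg hg)).symm

theorem cm_mul (f g : KK G L φ) : cm (f * g) = cm f * cm g := by
  rw [eq_sum_b f, eq_sum_b g]
  simp only [Finset.sum_mul, Finset.mul_sum, map_sum, map_smul, smul_mul_smul_comm, cm_mul_b]

theorem cm_one : cm (1 : KK G L φ) = 1 := by
  rw [← sum_b_one, map_sum]
  simp only [cm_b, map_one]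
  rw [Finset.sum_comm]
  have h1 : ∀ h : G, ∑ g : G, (b φ h 1 ⊗ₜ[ℂ] b φ (h⁻¹ * g) 1 : KK G L φ ⊗[ℂ] KK G L φ) =
      b φ h 1 ⊗ₜ[ℂ] 1 := by
    intro h
    rw [← TensorProduct.tmul_sum, ← sum_b_one]
    congr 1
    exact Fintype.sum_equiv (Equiv.mulLeft h⁻¹) _ _ (fun _ => rfl)
  simp only [h1]
  rw [← TensorProduct.sum_tmul, sum_b_one]
  rfl

theorem cu_mul (f g : KK G L φ) : cu (f * g) = cu f * cu g := by
  have key : ∀ g g' : G, ∀ x x' : L, cu (b φ g x * b φ g' x') = cu (b φ g x) * cu (b φ g' x') := by
    intro g g' x x'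
    rw [b_mul, cu_b, cu_b]
    by_cases hg : g = g'
    · subst hg
      rw [if_pos rfl, cu_b]
      split_ifs <;> simp
    · rw [if_neg hg, map_zero]
      split_ifs with h1 h2
      · exact absurd (h1.trans h2.symm) hg
      · simp
      · simp
      · simp
  rw [eq_sum_b f, eq_sum_b g]
  simp only [Finset.sum_mul, Finset.mul_sum, map_sum, map_smul, smul_mul_smul_comm, key]

theorem cu_one : cu (1 : KK G L φ) = 1 := by
  rw [← sum_b_one, map_sum]
  simp only [cu_b]
  simp

noncomputable instance : Coalgebra ℂ (KK G L φ) where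
  comul := cm
  counit := cu
  coassoc := by
    apply KK_ext
    intro g x
    simp only [LinearMap.comp_apply, cm_b, map_sum, LinearMap.rTensor_tmul, LinearMap.lTensor_tmul,
      TensorProduct.sum_tmul, TensorProduct.tmul_sum, TensorProduct.assoc_tmul,
      LinearEquiv.coe_coe]
    rw [Finset.sum_comm]
    refine Finset.sum_congr rfl fun h _ => ?_
    refine Fintype.sum_equiv (Equiv.mulLeft h⁻¹) _ _ (fun y => ?_)
    simp only [Equiv.coe_mulLeft, mul_inv_rev, inv_inv]
    have e1 : y⁻¹ * h * (h⁻¹ * g) = y⁻¹ * g := by group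
    have e2 : (φ (h⁻¹ * y)).symm ((φ h).symm x) = (φ y).symm x := by
      rw [MulEquiv.symm_apply_eq, MulEquiv.symm_apply_eq, ← MulAut.mul_apply, ← map_mul,
        mul_inv_cancel_left, MulEquiv.apply_symm_apply]
    rw [e1, e2]
  rTensor_counit_comp_comul := by
    apply KK_ext
    intro g x
    simp only [LinearMap.comp_apply, cm_b, map_sum, LinearMap.rTensor_tmul,
      TensorProduct.mk_apply]
    rw [Finset.sum_eq_single 1]
    · rw [cu_b, if_pos rfl, inv_one, one_mul, map_one]
      rfl
    · intro y _ hy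
      rw [cu_b, if_neg hy, TensorProduct.zero_tmul]
    · simp
  lTensor_counit_comp_comul := by
    apply KK_ext
    intro g x
    simp only [LinearMap.comp_apply, cm_b, map_sum, LinearMap.lTensor_tmul,
      LinearMap.flip_apply, TensorProduct.mk_apply]
    rw [Finset.sum_eq_single g]
    · rw [cu_b, if_pos (by group)]
    · intro y _ hy
      rw [cu_b, if_neg, TensorProduct.tmul_zero]
      intro h
      apply hy
      have := congrArg (fun t => y * t) h
      simpa using this.symm
    · simp

noncomputable instance : Bialgebra ℂ (KK G L φ) :=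
  Bialgebra.mk' ℂ (KK G L φ) cu_one (fun {a b} => cu_mul a b) cm_one (fun {a b} => cm_mul a b)

/-- The Hopf algebra `KK`. -/
noncomputable instance : HopfAlgebra ℂ (KK G L φ) where
  antipode := ap
  mul_antipode_rTensor_comul := by
    apply KK_ext
    intro g x
    show LinearMap.mul' ℂ _ ((ap.rTensor (KK G L φ)) (cm (b φ g x))) =
      Algebra.linearMap ℂ _ (cu (b φ g x))
    simp only [cm_b, map_sum, LinearMap.rTensor_tmul, ap_b, LinearMap.mul'_apply, b_mul]
    have : ∀ a : G, (a⁻¹ = a⁻¹ * g) ↔ (g = 1) := by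
      intro a
      constructor
      · intro h
        have h2 := congrArg (fun t => a * t) h
        simpa using h2.symm
      · intro h
        rw [h, mul_one]
    simp only [this, cu_b]
    by_cases h : g = 1
    · simp only [h, if_true]
      show _ = algebraMap ℂ (KK G L φ) 1
      rw [map_one, ← sum_b_one]
      refine Fintype.sum_equiv (Equiv.inv G) _ _ (fun y => ?_)
      simp only [Equiv.inv_apply]
      rw [← map_mul, inv_mul_cancel, map_one]
    · simp [h]
  mul_antipode_lTensor_comul := by
    apply KK_ext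
    intro g x
    show LinearMap.mul' ℂ _ ((ap.lTensor (KK G L φ)) (cm (b φ g x))) =
      Algebra.linearMap ℂ _ (cu (b φ g x))
    simp only [cm_b, map_sum, LinearMap.lTensor_tmul, ap_b, LinearMap.mul'_apply, b_mul]
    have : ∀ a : G, (a = (a⁻¹ * g)⁻¹) ↔ (g = 1) := by
      intro a
      rw [mul_inv_rev, inv_inv]
      constructor
      · intro h
        have h2 := congrArg (fun t => t * a⁻¹) h
        simp only [mul_inv_cancel, mul_assoc, mul_one] at h2
        rw [eq_comm, inv_eq_one] at h2
        exact h2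
      · intro h
        rw [h, inv_one, one_mul]
    simp only [this, cu_b]
    by_cases h : g = 1
    · simp only [h, if_true]
      show _ = algebraMap ℂ (KK G L φ) 1
      rw [map_one, ← sum_b_one]
      refine Finset.sum_congr rfl fun y _ => ?_
      rw [mul_one]
      have e : (φ y⁻¹).symm ((φ y).symm x)⁻¹ = x⁻¹ := by
        rw [MulEquiv.symm_apply_eq, ← map_inv, MulEquiv.symm_apply_eq, ← MulAut.mul_apply,
          ← map_mul, mul_inv_cancel, map_one]
        rfl
      rw [e, mul_inv_cancel]
    · simp [h]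

theorem comul_b (g : G) (x : L) : Coalgebra.comul (R := ℂ) (b φ g x) =
    ∑ h : G, b φ h x ⊗ₜ[ℂ] b φ (h⁻¹ * g) ((φ h).symm x) := cm_b g x

theorem counit_b (g : G) (x : L) : Coalgebra.counit (R := ℂ) (b φ g x) = if g = 1 then 1 else 0 :=
  cu_b g x

end

end V11196.STP
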