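import Pool.Agent.V11196.STP.Rep

/-!
# The example
-/

set_option linter.unusedSectionVars false
set_option linter.unusedSimpArgs false

namespace V11196.STP

open TensorProduct

/-- The shift action of `ℤ/N` on functions `ℤ/N → Γ`. -/
def shift (N : ℕ) (Γ : Type) [Group Γ] : Multiplicative (ZMod N) →* MulAut (ZMod N → Γ) where
  toFun g :=
    { toFun := fun x i => x (i - g.toAdd)
      invFun := fun x i => x (i + g.toAdd)
      left_inv := fun x => by funext i; simp
      right_inv := fun x => by funext i; simp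
      map_mul' := fun x y => rfl }
  map_one' := by
    apply MulEquiv.ext
    intro x
    funext i
    show x (i - (0 : ZMod N)) = x i
    rw [sub_zero]
  map_mul' g h := by
    apply MulEquiv.ext
    intro x
    funext i
    show x (i - (g.toAdd + h.toAdd)) = x ((i - g.toAdd) - h.toAdd)
    congr 1
    ring

theorem shift_symm (N : ℕ) (Γ : Type) [Group Γ] (g : Multiplicative (ZMod N)) (x : ZMod N → Γ)
    (i : ZMod N) : ((shift N Γ g).symm x) i = x (i + g.toAdd) := rfl

section

variable {N : ℕ} [NeZero N] {Γ : Type} [Group Γ] [Fintype Γ] [DecidableEq Γ]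
variable {V : Type} [AddCommGroup V] [Module ℂ V] [Module.Finite ℂ V] (π : Γ →* Module.End ℂ V)

/-- The generator of `ℤ/N`. -/
def gen (N : ℕ) : Multiplicative (ZMod N) := Multiplicative.ofAdd 1

/-- The module `V` with `Γ^N` acting through the zeroth coordinate, in degree one. -/
noncomputable def XX (N : ℕ) [NeZero N] (π : Γ →* Module.End ℂ V) :
    HRep (KK (Multiplicative (ZMod N)) (ZMod N → Γ) (shift N Γ)) :=
  base (shift N Γ) (gen N) (π.comp (Pi.evalMonoidHom (fun _ : ZMod N => Γ) 0))

/-- The operator of `x ∈ Γ^N` on the `n`-th tensor power. -/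
noncomputable def PP (n : ℕ) (x : ZMod N → Γ) : Module.End ℂ (((XX N π).pow n).V) :=
  ((XX N π).pow n).ρ (b (shift N Γ) (gen N ^ n) x)

/-- The tensor product of operators, as an operator on the next tensor power. -/
noncomputable def mp (n : ℕ) (A : Module.End ℂ ((XX N π).pow n).V) (B : Module.End ℂ V) :
    Module.End ℂ ((XX N π).pow (n + 1)).V :=
  (TensorProduct.map A B : Module.End ℂ (((XX N π).pow n).V ⊗[ℂ] V))

theorem mp_zero_left (n : ℕ) (B : Module.End ℂ V) : mp (N := N) π n 0 B = 0 :=
  TensorProduct.map_zero_left B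
theorem mp_zero_right (n : ℕ) (A : Module.End ℂ ((XX N π).pow n).V) : mp (N := N) π n A 0 = 0 :=
  TensorProduct.map_zero_right A
theorem mp_add_left (n : ℕ) (A A' : Module.End ℂ ((XX N π).pow n).V) (B : Module.End ℂ V) :
    mp (N := N) π n (A + A') B = mp π n A B + mp π n A' B := TensorProduct.map_add_left A A' B
theorem mp_add_right (n : ℕ) (A : Module.End ℂ ((XX N π).pow n).V) (B B' : Module.End ℂ V) :
    mp (N := N) π n A (B + B') = mp π n A B + mp π n A B' := TensorProduct.map_add_right A B B'
theorem mp_smul_left (n : ℕ) (c : ℂ) (A : Module.End ℂ ((XX N π).pow n).V) (B : Module.End ℂ V) :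
    mp (N := N) π n (c • A) B = c • mp π n A B := TensorProduct.map_smul_left c A B
theorem mp_smul_right (n : ℕ) (c : ℂ) (A : Module.End ℂ ((XX N π).pow n).V) (B : Module.End ℂ V) :
    mp (N := N) π n A (c • B) = c • mp π n A B := TensorProduct.map_smul_right c A B

theorem PP_succ (n : ℕ) (x : ZMod N → Γ) :
    PP π (n + 1) x = mp π n (PP π n x) (π (x (n : ZMod N))) := by
  have h := pow_b_succ (φ := shift N Γ) (gen N)
    (π.comp (Pi.evalMonoidHom (fun _ : ZMod N => Γ) 0)) n x
  have e : (π.comp (Pi.evalMonoidHom (fun _ : ZMod N => Γ) 0))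
      ((shift N Γ (gen N ^ n)).symm x) = π (x (n : ZMod N)) := by
    show π (((shift N Γ (gen N ^ n)).symm x) 0) = _
    rw [shift_symm]
    congr 2
    rw [toAdd_pow, zero_add]
    show n • (1 : ZMod N) = _
    rw [nsmul_one]
  rw [e] at h
  exact h

theorem PP_indep (n : ℕ) (x y : ZMod N → Γ) (h : ∀ i : ℕ, i < n → x (i : ZMod N) = y (i : ZMod N)) :
    PP π n x = PP π n y := by
  induction n with
  | zero =>
    show (HRep.unit (H := KK (Multiplicative (ZMod N)) (ZMod N → Γ) (shift N Γ))).ρ
      (b (shift N Γ) (gen N ^ 0) x) = (HRep.unit).ρ (b (shift N Γ) (gen N ^ 0) y)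
    rw [unit_b, unit_b]
  | succ n ih =>
    rw [PP_succ, PP_succ, ih (fun i hi => h i (by omega)), h n (by omega)]

theorem natCast_ne {i n : ℕ} (hi : i < n) (hn : n < N) : (i : ZMod N) ≠ (n : ZMod N) := by
  intro h
  rw [ZMod.natCast_eq_natCast_iff', Nat.mod_eq_of_lt (by omega), Nat.mod_eq_of_lt hn] at h
  omega

theorem mp_mem (hπ : Submodule.span ℂ (Set.range π) = ⊤) (n : ℕ) (hn : n + 1 ≤ N)
    (ih' : Submodule.span ℂ (Set.range (PP (N := N) π n)) = ⊤)
    (A : Module.End ℂ ((XX N π).pow n).V) (B : Module.End ℂ V) :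
    mp π n A B ∈ Submodule.span ℂ (Set.range (PP (N := N) π (n + 1))) := by
  have hA : A ∈ Submodule.span ℂ (Set.range (PP (N := N) π n)) := by rw [ih']; trivial
  have hB : B ∈ Submodule.span ℂ (Set.range π) := by rw [hπ]; trivial
  induction hA using Submodule.span_induction with
  | mem A hA =>
    obtain ⟨x, rfl⟩ := hA
    induction hB using Submodule.span_induction with
    | mem B hB =>
      obtain ⟨γ, rfl⟩ := hB
      apply Submodule.subset_span
      refine ⟨Function.update x (n : ZMod N) γ, ?_⟩
      rw [PP_succ, Function.update_self, PP_indep π n (Function.update x (n : ZMod N) γ) x]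
      intro i hi
      rw [Function.update_of_ne (natCast_ne hi (by omega))]
    | zero => rw [mp_zero_right]; exact Submodule.zero_mem _
    | add B B' _ _ h h' => rw [mp_add_right]; exact Submodule.add_mem _ h h'
    | smul c B _ h => rw [mp_smul_right]; exact Submodule.smul_mem _ _ h
  | zero => rw [mp_zero_left]; exact Submodule.zero_mem _
  | add A A' _ _ h h' => rw [mp_add_left]; exact Submodule.add_mem _ h h'
  | smul c A _ h => rw [mp_smul_left]; exact Submodule.smul_mem _ _ h

/-- The operators `P_n(x)` span all endomorphisms, as long as `n ≤ N`. -/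
theorem PP_span (hπ : Submodule.span ℂ (Set.range π) = ⊤) (n : ℕ) (hn : n ≤ N) :
    Submodule.span ℂ (Set.range (PP (N := N) π n)) = ⊤ := by
  induction n with
  | zero =>
    rw [eq_top_iff]
    intro T _
    have h1 : PP (N := N) π 0 1 = 1 := by
      show (HRep.unit (H := KK (Multiplicative (ZMod N)) (ZMod N → Γ) (shift N Γ))).ρ
        (b (shift N Γ) (gen N ^ 0) 1) = 1
      rw [unit_b, pow_zero, if_pos rfl]
    have h3 : ∀ T : Module.End ℂ ℂ, T = (T 1) • (1 : Module.End ℂ ℂ) := by
      intro T
      apply LinearMap.ext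
      intro c
      have : T c = T (c • (1 : ℂ)) := by rw [smul_eq_mul, mul_one]
      rw [this, map_smul, smul_eq_mul, LinearMap.smul_apply, Module.End.one_apply, smul_eq_mul,
        mul_comm]
    have h2 : ∃ c : ℂ, T = c • PP (N := N) π 0 1 := by
      rw [h1]
      exact ⟨_, h3 T⟩
    obtain ⟨c, hc⟩ := h2
    rw [hc]
    exact Submodule.smul_mem _ _ (Submodule.subset_span ⟨1, rfl⟩)
  | succ n ih =>
    have ih' := ih (by omega)
    rw [eq_top_iff]
    intro T _
    obtain ⟨t, ht⟩ := (homTensorHomEquiv ℂ ((XX N π).pow n).V V ((XX N π).pow n).V V).surjective T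
    have key : ∀ t, (show Module.End ℂ ((XX N π).pow (n + 1)).V from
        homTensorHomEquiv ℂ ((XX N π).pow n).V V ((XX N π).pow n).V V t) ∈
        Submodule.span ℂ (Set.range (PP (N := N) π (n + 1))) := by
      intro t
      induction t with
      | zero => rw [map_zero]; exact Submodule.zero_mem _
      | add a b ha hb => rw [map_add]; exact Submodule.add_mem _ ha hb
      | tmul A B =>
        rw [homTensorHomEquiv_apply, homTensorHomMap_apply]
        exact mp_mem π hπ n hn ih' A B
    have := key t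
    rw [ht] at this
    exact this

theorem finrank_pow (n : ℕ) : Module.finrank ℂ ((XX N π).pow n).V = Module.finrank ℂ V ^ n := by
  induction n with
  | zero =>
    show Module.finrank ℂ ℂ = _
    rw [Module.finrank_self, pow_zero]
  | succ n ih =>
    show Module.finrank ℂ (((XX N π).pow n).V ⊗[ℂ] V) = _
    rw [Module.finrank_tensorProduct, ih, pow_succ]

theorem pow_simple [Nontrivial V] (hπ : Submodule.span ℂ (Set.range π) = ⊤) (n : ℕ) (hn : n ≤ N) :
    ((XX N π).pow n).IsSimple := by
  have hV : 0 < Module.finrank ℂ V := Module.finrank_pos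
  haveI : Nontrivial ((XX N π).pow n).V := by
    apply Module.nontrivial_of_finrank_pos (R := ℂ)
    rw [finrank_pow]
    exact pow_pos hV n
  apply simple_of_surj
  intro T
  have hT : T ∈ Submodule.span ℂ (Set.range (PP (N := N) π n)) := by
    rw [PP_span π hπ n hn]; trivial
  have hle : Submodule.span ℂ (Set.range (PP (N := N) π n)) ≤
      LinearMap.range (((XX N π).pow n).ρ.toLinearMap) := by
    rw [Submodule.span_le]
    rintro _ ⟨x, rfl⟩
    exact ⟨_, rfl⟩
  obtain ⟨x, hx⟩ := hle hT
  exact ⟨x, hx⟩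

end

section Dihedral

open Matrix

/-- Integral matrices of the dihedral group of order eight. -/
def dz : DihedralGroup 4 → Matrix (Fin 2) (Fin 2) ℤ
  | .r i => !![0, -1; 1, 0] ^ i.val
  | .sr i => !![1, 0; 0, -1] * !![0, -1; 1, 0] ^ i.val

theorem dz_mul (a c : DihedralGroup 4) : dz (a * c) = dz a * dz c := by
  revert a c
  decide +kernel

/-- The two-dimensional irreducible representation of the dihedral group of order eight. -/
noncomputable def dd : DihedralGroup 4 →* Module.End ℂ (Fin 2 → ℂ) where
  toFun a := Matrix.toLinAlgEquiv' ((dz a).map (Int.castRingHom ℂ))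
  map_one' := by
    have : dz 1 = 1 := by decide +kernel
    rw [this, Matrix.map_one _ (map_zero _) (map_one _), map_one]
  map_mul' a c := by
    rw [dz_mul, Matrix.map_mul, map_mul]

theorem dd_span : Submodule.span ℂ (Set.range dd) = ⊤ := by
  rw [eq_top_iff]
  intro T _
  obtain ⟨M, rfl⟩ := (Matrix.toLinAlgEquiv' (R := ℂ) (n := Fin 2)).surjective T
  have h0 : (dz (.r 0)).map (Int.castRingHom ℂ) = !![1, 0; 0, 1] := by
    have : dz (.r 0) = !![1, 0; 0, 1] := by decide +kernel
    rw [this]
    ext i j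
    fin_cases i <;> fin_cases j <;> simp
  have h1 : (dz (.r 1)).map (Int.castRingHom ℂ) = !![0, -1; 1, 0] := by
    have : dz (.r 1) = !![0, -1; 1, 0] := by decide +kernel
    rw [this]
    ext i j
    fin_cases i <;> fin_cases j <;> simp
  have h2 : (dz (.sr 0)).map (Int.castRingHom ℂ) = !![1, 0; 0, -1] := by
    have : dz (.sr 0) = !![1, 0; 0, -1] := by decide +kernel
    rw [this]
    ext i j
    fin_cases i <;> fin_cases j <;> simp
  have h3 : (dz (.sr 1)).map (Int.castRingHom ℂ) = !![0, -1; -1, 0] := by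
    have : dz (.sr 1) = !![0, -1; -1, 0] := by decide +kernel
    rw [this]
    ext i j
    fin_cases i <;> fin_cases j <;> simp
  have hM : M = ((M 0 0 + M 1 1) / 2) • !![1, 0; 0, 1] + ((M 1 0 - M 0 1) / 2) • !![0, -1; 1, 0] +
      ((M 0 0 - M 1 1) / 2) • !![1, 0; 0, -1] + (-(M 0 1 + M 1 0) / 2) • !![0, -1; -1, 0] := by
    ext i j
    fin_cases i <;> fin_cases j <;> simp <;> ring
  rw [hM, ← h0, ← h1, ← h2, ← h3]
  simp only [map_add, map_smul]
  exact Submodule.add_mem _ (Submodule.add_mem _ (Submodule.add_mem _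
    (Submodule.smul_mem _ _ (Submodule.subset_span ⟨.r 0, rfl⟩))
    (Submodule.smul_mem _ _ (Submodule.subset_span ⟨.r 1, rfl⟩)))
    (Submodule.smul_mem _ _ (Submodule.subset_span ⟨.sr 0, rfl⟩)))
    (Submodule.smul_mem _ _ (Submodule.subset_span ⟨.sr 1, rfl⟩))

end Dihedral

end V11196.STP
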