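import Pool.Agent.V11196.STP.Hopf

/-!
# Tensor powers of modules over Hopf algebras
-/

set_option linter.unusedSectionVars false
set_option linter.unusedSimpArgs false

namespace V11196.STP

open TensorProduct

/-- A finite-dimensional module over the Hopf algebra `H`, given as an algebra map
`ρ : H → End(V)`. -/
structure HRep (H : Type) [Ring H] [HopfAlgebra ℂ H] where
  V : Type
  [grp : AddCommGroup V]
  [mod : Module ℂ V]
  [fin : Module.Finite ℂ V]
  ρ : H →ₐ[ℂ] Module.End ℂ V

attribute [instance] HRep.grp HRep.mod HRep.fin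

section

variable {H : Type} [Ring H] [HopfAlgebra ℂ H]

/-- The tensor product of two `H`-modules, with `H` acting through the comultiplication. -/
noncomputable def HRep.tensor (X Y : HRep H) : HRep H where
  V := X.V ⊗[ℂ] Y.V
  ρ := (Module.endTensorEndAlgHom (R := ℂ) (S := ℂ) (A := ℂ)).comp
    ((Algebra.TensorProduct.map X.ρ Y.ρ).comp (Bialgebra.comulAlgHom ℂ H))

/-- The trivial module. -/
noncomputable def HRep.unit : HRep H where
  V := ℂ
  ρ := (Algebra.ofId ℂ (Module.End ℂ ℂ)).comp (Bialgebra.counitAlgHom ℂ H)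

/-- Tensor powers. -/
noncomputable def HRep.pow (X : HRep H) : ℕ → HRep H
  | 0 => HRep.unit
  | n + 1 => (HRep.pow X n).tensor X

/-- Simple modules: nonzero, and no invariant subspaces besides `0` and everything. -/
def HRep.IsSimple (X : HRep H) : Prop :=
  Nontrivial X.V ∧ ∀ W : Submodule ℂ X.V, (∀ h : H, ∀ w ∈ W, X.ρ h w ∈ W) → W = ⊥ ∨ W = ⊤

/-- If the image of `H` spans all endomorphisms then the module is simple. -/
theorem simple_of_surj (X : HRep H) [Nontrivial X.V]
    (h : ∀ T : Module.End ℂ X.V, ∃ x : H, X.ρ x = T) : X.IsSimple := by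
  refine ⟨inferInstance, fun W hW => ?_⟩
  by_cases hb : W = ⊥
  · exact Or.inl hb
  · right
    obtain ⟨w, hw, hw0⟩ := W.ne_bot_iff.mp hb
    obtain ⟨f, hf⟩ := Module.Projective.exists_dual_ne_zero ℂ hw0
    rw [eq_top_iff]
    intro v _
    obtain ⟨x, hx⟩ := h ((LinearMap.toSpanSingleton ℂ X.V ((f w)⁻¹ • v)) ∘ₗ f)
    have h1 := hW x w hw
    rw [hx, LinearMap.comp_apply, LinearMap.toSpanSingleton_apply, smul_smul,
      mul_inv_cancel₀ hf, one_smul] at h1
    exact h1

end

section

variable {G L : Type} [Group G] [Group L] {φ : G →* MulAut L} [Fintype G] [DecidableEq G]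
  [Fintype L] [DecidableEq L]

theorem tensor_b (X Y : HRep (KK G L φ)) (g : G) (x : L) :
    (X.tensor Y).ρ (b φ g x) =
      ∑ h : G, TensorProduct.map (X.ρ (b φ h x)) (Y.ρ (b φ (h⁻¹ * g) ((φ h).symm x))) := by
  show Module.endTensorEndAlgHom (R := ℂ) (S := ℂ) (A := ℂ)
    (Algebra.TensorProduct.map X.ρ Y.ρ (Coalgebra.comul (R := ℂ) (b φ g x))) = _
  rw [comul_b, map_sum, map_sum]
  refine Finset.sum_congr rfl fun h _ => ?_
  rw [Algebra.TensorProduct.map_tmul, Module.endTensorEndAlgHom_apply]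
  rfl

theorem unit_b (g : G) (x : L) :
    (HRep.unit (H := KK G L φ)).ρ (b φ g x) = if g = 1 then 1 else 0 := by
  show Algebra.ofId ℂ (Module.End ℂ ℂ) (Coalgebra.counit (R := ℂ) (b φ g x)) = _
  rw [counit_b]
  split_ifs
  · rw [map_one]; rfl
  · rw [map_zero]; rfl

/-- The module `V` placed in degree `s`. -/
noncomputable def base (φ : G →* MulAut L) {V : Type} [AddCommGroup V] [Module ℂ V]
    [Module.Finite ℂ V] (s : G) (π : L →* Module.End ℂ V) : HRep (KK G L φ) where
  V := V
  ρ := (MonoidAlgebra.lift ℂ (Module.End ℂ V) L π).comp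
    (Pi.evalAlgHom ℂ (fun _ : G => MonoidAlgebra ℂ L) s)

theorem base_b_ne {V : Type} [AddCommGroup V] [Module ℂ V]
    [Module.Finite ℂ V] (s : G) (π : L →* Module.End ℂ V) (g : G) (x : L) (h : g ≠ s) :
    (base φ s π).ρ (b φ g x) = 0 := by
  show MonoidAlgebra.lift ℂ (Module.End ℂ V) L π (if s = g then MonoidAlgebra.single x 1 else 0) = _
  rw [if_neg (Ne.symm h), map_zero]
  rfl

theorem base_b_eq {V : Type} [AddCommGroup V] [Module ℂ V]
    [Module.Finite ℂ V] (s : G) (π : L →* Module.End ℂ V) (g : G) (x : L) (h : g = s) :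
    (base φ s π).ρ (b φ g x) = (show Module.End ℂ (base φ s π).V from π x) := by
  show MonoidAlgebra.lift ℂ (Module.End ℂ V) L π (if s = g then MonoidAlgebra.single x 1 else 0) = _
  rw [if_pos h.symm, MonoidAlgebra.lift_single, one_smul]

theorem pow_b_ne {V : Type} [AddCommGroup V] [Module ℂ V]
    [Module.Finite ℂ V] (s : G) (π : L →* Module.End ℂ V) (n : ℕ) (g : G) (x : L)
    (hg : g ≠ s ^ n) : ((base φ s π).pow n).ρ (b φ g x) = 0 := by
  induction n generalizing g x with
  | zero =>
    rw [pow_zero] at hg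
    show (HRep.unit (H := KK G L φ)).ρ (b φ g x) = 0
    rw [unit_b, if_neg hg]
  | succ n ih =>
    show (((base φ s π).pow n).tensor (base φ s π)).ρ (b φ g x) = 0
    rw [tensor_b]
    apply Finset.sum_eq_zero
    intro h _
    by_cases hh : h = s ^ n
    · rw [base_b_ne, TensorProduct.map_zero_right]
      · rfl
      · intro h'
        apply hg
        rw [pow_succ, ← hh, ← h']
        group
    · rw [ih h x hh, TensorProduct.map_zero_left]
      rfl

theorem pow_b_succ {V : Type} [AddCommGroup V] [Module ℂ V]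
    [Module.Finite ℂ V] (s : G) (π : L →* Module.End ℂ V) (n : ℕ) (x : L) :
    ((base φ s π).pow (n + 1)).ρ (b φ (s ^ (n + 1)) x) =
      (show Module.End ℂ (((base φ s π).pow n).V ⊗[ℂ] V) from
        TensorProduct.map (((base φ s π).pow n).ρ (b φ (s ^ n) x)) (π ((φ (s ^ n)).symm x))) := by
  show (((base φ s π).pow n).tensor (base φ s π)).ρ (b φ (s ^ (n + 1)) x) = _
  rw [tensor_b, Finset.sum_eq_single (s ^ n)]
  · rw [base_b_eq]
    · rfl
    · rw [pow_succ]
      group
  · intro h _ hh
    rw [pow_b_ne s π n h x hh, TensorProduct.map_zero_left]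
  · simp

end

end V11196.STP
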